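import Pool.Agent.KNT.Defs

/-!
# LKG/Defs: links in general position with respect to a half plane, definitions

`Hp` is the open half plane `{re w = 0, im w < 0}` with boundary `U`.
`Lk n B`: `B` is the union of `n` disjoint smoothly embedded circles.
`Gr B p`: near `p` the set `B` is the graph of a smooth function of `u = re w`.
`Sg B p`: near `p` the set `B` is the straight line in the direction of `u = re w`.
`GenG B`: `B` is compact, disjoint from `U`, meets `Hp` in finitely many points, graph form at all of them.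
`GenB B`: the same, straight form, and the heights of the points of `B ∩ Hp` are distinct.
-/

open scoped ContDiff Topology
open Set Filter

namespace Pool.Agent.LKG

/-- the half plane -/
def Hp : Set (ℂ × ℝ) := {q | q.1.re = 0 ∧ q.1.im < 0}

/-- `B` is a link with `n` components. -/
def Lk (n : ℕ) (B : Set (ℂ × ℝ)) : Prop :=
  ∃ c : Fin n → ℝ → ℂ × ℝ, (∀ i, ContDiff ℝ ∞ (c i)) ∧ (∀ i s, deriv (c i) s ≠ 0) ∧
    (∀ i s, c i (s + 1) = c i s) ∧ (∀ i s j t, c i s = c j t → i = j ∧ ∃ k : ℤ, s = t + k) ∧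
    B = ⋃ i, range (c i)

/-- graph form at `p` -/
def Gr (B : Set (ℂ × ℝ)) (p : ℂ × ℝ) : Prop :=
  ∃ β γ : ℝ → ℝ, (∀ᶠ u in 𝓝 p.1.re, ContDiffAt ℝ ∞ β u ∧ ContDiffAt ℝ ∞ γ u) ∧ β p.1.re = p.1.im ∧
    γ p.1.re = p.2 ∧ ∀ᶠ q in 𝓝 p, (q ∈ B ↔ q.1.im = β q.1.re ∧ q.2 = γ q.1.re)

/-- straight form at `p` -/
def Sg (B : Set (ℂ × ℝ)) (p : ℂ × ℝ) : Prop :=
  ∀ᶠ q in 𝓝 p, (q ∈ B ↔ q.1.im = p.1.im ∧ q.2 = p.2)

/-- finitely many crossings in graph form -/
structure GenG (B : Set (ℂ × ℝ)) : Prop where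
  cpt : IsCompact B
  off : Disjoint KNT.U B
  fin : (B ∩ Hp).Finite
  gr : ∀ p ∈ B ∩ Hp, Gr B p

/-- finitely many straight crossings at distinct heights -/
structure GenB (B : Set (ℂ × ℝ)) : Prop where
  cpt : IsCompact B
  off : Disjoint KNT.U B
  fin : (B ∩ Hp).Finite
  sg : ∀ p ∈ B ∩ Hp, Sg B p
  hts : ∀ p ∈ B ∩ Hp, ∀ p' ∈ B ∩ Hp, p.2 = p'.2 → p = p'

end Pool.Agent.LKG
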