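import Pool.Agent.LKG.Defs
import Pool.Agent.KNT.Cdm

/-!
# LKG/Germ: the graph form and the straight form are properties of the germ
-/

open scoped ContDiff Topology
open Set Filter
open Pool.Agent.KNT (CD U)

namespace Pool.Agent.LKG

theorem Gr.congr {B B' : Set (ℂ × ℝ)} {p : ℂ × ℝ} (h : Gr B p) (he : ∀ᶠ q in 𝓝 p, (q ∈ B' ↔ q ∈ B)) : Gr B' p := by
  obtain ⟨β, γ, h1, h3, h4, h5⟩ := h
  refine ⟨β, γ, h1, h3, h4, ?_⟩
  filter_upwards [h5, he] with q hq1 hq2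
  rw [hq2, hq1]

theorem Sg.congr {B B' : Set (ℂ × ℝ)} {p : ℂ × ℝ} (h : Sg B p) (he : ∀ᶠ q in 𝓝 p, (q ∈ B' ↔ q ∈ B)) : Sg B' p := by
  unfold Sg at *
  filter_upwards [h, he] with q hq1 hq2
  rw [hq2, hq1]

theorem Sg.gr {B : Set (ℂ × ℝ)} {p : ℂ × ℝ} (h : Sg B p) : Gr B p :=
  ⟨fun _ => p.1.im, fun _ => p.2, Eventually.of_forall fun _ => ⟨contDiffAt_const, contDiffAt_const⟩, rfl, rfl, h⟩

/-- a crossing in graph form is isolated -/
theorem Gr.isol {B : Set (ℂ × ℝ)} {p : ℂ × ℝ} (h : Gr B p) (hp : p ∈ Hp) :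
    ∀ᶠ q in 𝓝 p, q ∈ B → q ∈ Hp → q = p := by
  obtain ⟨β, γ, h1, h3, h4, h5⟩ := h
  filter_upwards [h5] with q hq hqB hqH
  obtain ⟨e1, e2⟩ := hq.1 hqB
  have e3 : q.1.re = p.1.re := hqH.1.trans hp.1.symm
  rw [e3, h3] at e1
  rw [e3, h4] at e2
  exact Prod.ext (Complex.ext e3 e1) e2

theorem Hp_isol {B : Set (ℂ × ℝ)} (hc : IsCompact B) (hd : Disjoint U B)
    (h : ∀ p ∈ B ∩ Hp, Gr B p) : (B ∩ Hp).Finite := by
  have h1 : IsCompact (B ∩ Hp) := by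
    have e1 : B ∩ Hp = B ∩ {q : ℂ × ℝ | q.1.re = 0 ∧ q.1.im ≤ 0} := by
      ext q
      constructor
      · rintro ⟨a, b, c⟩
        exact ⟨a, b, c.le⟩
      · rintro ⟨a, b, c⟩
        refine ⟨a, b, lt_of_le_of_ne c fun h0 => ?_⟩
        exact Set.disjoint_left.1 hd (show q.1 = 0 from Complex.ext b h0) a
    rw [e1]
    apply hc.inter_right
    apply IsClosed.inter
    · exact isClosed_eq (Complex.continuous_re.comp continuous_fst) continuous_const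
    · exact isClosed_le (Complex.continuous_im.comp continuous_fst) continuous_const
  have h2 : ∀ p ∈ B ∩ Hp, {q : ℂ × ℝ | q ∈ B → q ∈ Hp → q = p} ∈ 𝓝 p := fun p hp => (h p hp).isol hp.2
  obtain ⟨t, ht, ht2⟩ := h1.elim_nhds_subcover (fun p => {q : ℂ × ℝ | q ∈ B → q ∈ Hp → q = p}) h2
  apply t.finite_toSet.subset
  intro q hq
  obtain ⟨p, hp, hqp⟩ := mem_iUnion₂.1 (ht2 hq)
  rw [hqp hq.1 hq.2]
  exact hp

/-- `F '' B` and `B` have the same germ off the support of `F`. -/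
theorem germ_of_CD {O B : Set (ℂ × ℝ)} {F : Equiv.Perm (ℂ × ℝ)} (h : CD O F) {p : ℂ × ℝ} (hp : p ∉ O) :
    ∀ᶠ q in 𝓝 p, (q ∈ F '' B ↔ q ∈ B) := by
  obtain ⟨C, hC, hCO, hF⟩ := h.supp
  have h1 : p ∈ Cᶜ := fun hpC => hp (hCO hpC)
  filter_upwards [hC.isClosed.isOpen_compl.mem_nhds h1] with q hq
  have h2 : F q = q := hF q hq
  constructor
  · rintro ⟨x, hx, hxq⟩
    have h3 : x = q := F.injective (hxq.trans h2.symm)
    exact h3 ▸ hx
  · intro hx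
    exact ⟨q, hx, h2⟩

theorem CD_image_U {F : Equiv.Perm (ℂ × ℝ)} (h : CD Uᶜ F) : F '' U = U :=
  h.image_disj disjoint_compl_right

theorem CD_off {F : Equiv.Perm (ℂ × ℝ)} (h : CD Uᶜ F) {B : Set (ℂ × ℝ)} (hd : Disjoint U B) : Disjoint U (F '' B) := by
  rw [Set.disjoint_left] at *
  rintro x hx ⟨y, hy, rfl⟩
  have h1 : F (F y) = F y := h.fix (fun hc => hc hx)
  exact hd hx ((F.injective h1).symm ▸ hy)

theorem CD_cpt {O : Set (ℂ × ℝ)} {F : Equiv.Perm (ℂ × ℝ)} (h : CD O F) {B : Set (ℂ × ℝ)} (hc : IsCompact B) :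
    IsCompact (F '' B) := hc.image h.smooth.continuous

end Pool.Agent.LKG
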