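import Pool.Agent.LKG.Rot

/-!
# LKG/Hts: distinct heights
-/

open scoped ContDiff Topology
open Set Filter
open Pool.Agent.KNT (CD U)
open Pool.Agent.RSG (ex)

namespace Pool.Agent.LKG

theorem LKG_lat : ISO.Lat (⊥ : AddSubgroup (ℂ × ℝ)) := by
  intro R
  apply (Set.finite_singleton (0 : ℂ × ℝ)).subset
  rintro m ⟨hm, -⟩
  exact AddSubgroup.mem_bot.1 hm

theorem Hts_main {B : Set (ℂ × ℝ)} (hB : GenG B) :
    ∃ F : Equiv.Perm (ℂ × ℝ), CD Uᶜ F ∧ (∀ q, (F q).1 = q.1) ∧ GenG (F '' B) ∧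
      (F '' B ∩ Hp).ncard = (B ∩ Hp).ncard ∧ ∀ p ∈ F '' B ∩ Hp, ∀ p' ∈ F '' B ∩ Hp, p.2 = p'.2 → p = p' := by
  obtain ⟨χ, hχs, -, ⟨C, hC, hCU, hC0⟩, hχ1⟩ := Rot_cut hB.cpt hB.off
  have hns : ContDiff ℝ ∞ fun q : ℂ × ℝ => q.1.re ^ 2 + q.1.im ^ 2 := by
    have e2 : ContDiff ℝ ∞ fun q : ℂ × ℝ => q.1.re := Complex.reCLM.contDiff.comp contDiff_fst
    have e3 : ContDiff ℝ ∞ fun q : ℂ × ℝ => q.1.im := Complex.imCLM.contDiff.comp contDiff_fst
    exact (e2.pow 2).add (e3.pow 2)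
  let G : ℝ × (ℂ × ℝ) → ℂ × ℝ := fun x => (0, x.1 * (χ x.2 * (x.2.1.re ^ 2 + x.2.1.im ^ 2)))
  have hG : ContDiff ℝ ∞ G :=
    contDiff_const.prodMk (contDiff_fst.mul ((hχs.comp contDiff_snd).mul (hns.comp contDiff_snd)))
  have hev := ISO.small_family LKG_lat (O := Uᶜ) hG (s₀ := 0) (fun x => by
      show ((0 : ℂ), (0 : ℝ) * _) = 0
      rw [zero_mul]; rfl)
    (fun m hm s x => by rw [AddSubgroup.mem_bot.1 hm, add_zero]) hC hCU
    (fun s x hx => by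
      have e1 : χ x = 0 := hC0 x (by simpa using hx 0 (AddSubgroup.zero_mem _))
      show ((0 : ℂ), s * (χ x * _)) = 0
      rw [e1, zero_mul, mul_zero]; rfl)
  -- bad values of s
  let bad : Set ℝ := {s | ∃ p ∈ B ∩ Hp, ∃ p' ∈ B ∩ Hp, p ≠ p' ∧
    p.2 + s * (p.1.re ^ 2 + p.1.im ^ 2) = p'.2 + s * (p'.1.re ^ 2 + p'.1.im ^ 2)}
  have hbad : bad.Finite := by
    have e1 : bad ⊆ ⋃ p ∈ B ∩ Hp, ⋃ p' ∈ B ∩ Hp, {s | p ≠ p' ∧
        p.2 + s * (p.1.re ^ 2 + p.1.im ^ 2) = p'.2 + s * (p'.1.re ^ 2 + p'.1.im ^ 2)} := by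
      rintro s ⟨p, hp, p', hp', h⟩
      exact mem_iUnion₂.2 ⟨p, hp, mem_iUnion₂.2 ⟨p', hp', h⟩⟩
    refine Set.Finite.subset ?_ e1
    apply hB.fin.biUnion
    intro p hp
    apply hB.fin.biUnion
    intro p' hp'
    by_cases hr : p.1.re ^ 2 + p.1.im ^ 2 = p'.1.re ^ 2 + p'.1.im ^ 2
    · have e2 : {s : ℝ | p ≠ p' ∧ p.2 + s * (p.1.re ^ 2 + p.1.im ^ 2) = p'.2 + s * (p'.1.re ^ 2 + p'.1.im ^ 2)} = ∅ := by
        apply eq_empty_of_forall_notMem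
        rintro s ⟨hne, he⟩
        apply hne
        rw [hr] at he
        have h2 : p.2 = p'.2 := by linarith
        have h3 : p.1.re = p'.1.re := hp.2.1.trans hp'.2.1.symm
        rw [h3] at hr
        have h4 : p.1.im = p'.1.im := by
          have h5 : p.1.im < 0 := hp.2.2
          have h6 : p'.1.im < 0 := hp'.2.2
          nlinarith
        exact Prod.ext (Complex.ext h3 h4) h2
      rw [e2]
      exact finite_empty
    · apply (finite_singleton ((p'.2 - p.2) / (p.1.re ^ 2 + p.1.im ^ 2 - (p'.1.re ^ 2 + p'.1.im ^ 2)))).subset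
      rintro s ⟨-, he⟩
      rw [mem_singleton_iff, eq_div_iff (sub_ne_zero.2 hr)]
      linarith
  have h1 : ∀ᶠ s in 𝓝[≠] (0 : ℝ), s ∉ bad := by
    have e1 : ((bad \ {0})ᶜ : Set ℝ) ∈ 𝓝 (0 : ℝ) :=
      (hbad.subset diff_subset).isClosed.isOpen_compl.mem_nhds (fun h => h.2 rfl)
    filter_upwards [nhdsWithin_le_nhds e1, self_mem_nhdsWithin] with s hs1 hs2 hs3
    exact hs1 ⟨hs3, hs2⟩
  obtain ⟨s, hs, F, hF, hFx⟩ := (h1.and (nhdsWithin_le_nhds hev)).exists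
  have hFx' : ∀ x, F x = (x.1, x.2 + s * (χ x * (x.1.re ^ 2 + x.1.im ^ 2))) := by
    intro x
    rw [hFx]
    show (x.1 + 0, x.2 + s * (χ x * _)) = _
    rw [add_zero]
  have hCD : CD Uᶜ F := KNT.cd_of_move hF
  have hHp : ∀ x, F x ∈ Hp ↔ x ∈ Hp := by
    intro x
    rw [hFx']
    exact Iff.rfl
  have himg : F '' B ∩ Hp = F '' (B ∩ Hp) := by
    ext y
    constructor
    · rintro ⟨⟨x, hx, rfl⟩, hy⟩
      exact ⟨x, ⟨hx, (hHp x).1 hy⟩, rfl⟩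
    · rintro ⟨x, ⟨hx, hy⟩, rfl⟩
      exact ⟨⟨x, hx, rfl⟩, (hHp x).2 hy⟩
  refine ⟨F, hCD, fun q => by rw [hFx'], ⟨CD_cpt hCD hB.cpt, CD_off hCD hB.off, ?_, ?_⟩, ?_, ?_⟩
  · rw [himg]
    exact hB.fin.image F
  · rw [himg]
    rintro _ ⟨p, hp, rfl⟩
    obtain ⟨β, γ, g1, g3, g4, g5⟩ := hB.gr p hp
    have hp1 : χ p = 1 := (hχ1 p hp.1).self_of_nhds
    have hFp1 : (F p).1 = p.1 := by rw [hFx']
    have hFp2 : (F p).2 = p.2 + s * (p.1.re ^ 2 + p.1.im ^ 2) := by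
      rw [hFx']
      show p.2 + s * (χ p * _) = _
      rw [hp1, one_mul]
    refine ⟨β, fun u => γ u + s * (u ^ 2 + β u ^ 2), ?_, ?_, ?_, ?_⟩
    · rw [hFp1]
      filter_upwards [g1] with u hu
      exact ⟨hu.1, hu.2.add (contDiffAt_const.mul ((contDiffAt_id.pow 2).add (hu.1.pow 2)))⟩
    · rw [hFp1]; exact g3
    · rw [hFp1, hFp2]
      show γ p.1.re + s * (p.1.re ^ 2 + β p.1.re ^ 2) = _
      rw [g3, g4]
    · have ht : Tendsto F.symm (𝓝 (F p)) (𝓝 p) := by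
        have e1 := hCD.smooth_symm.continuous.tendsto (F p)
        rwa [F.symm_apply_apply] at e1
      filter_upwards [ht.eventually g5, ht.eventually (hχ1 p hp.1)] with y hy1 hy2
      have e1 : y ∈ F '' B ↔ F.symm y ∈ B := by
        constructor
        · rintro ⟨x, hx, rfl⟩
          rwa [F.symm_apply_apply]
        · intro h
          exact ⟨_, h, F.apply_symm_apply y⟩
      rw [e1, hy1]
      have e2 := hFx' (F.symm y)
      rw [F.apply_symm_apply, hy2, one_mul] at e2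
      obtain ⟨e3, e4⟩ := Prod.ext_iff.1 e2
      simp only at e3 e4
      rw [← e3] at e4 ⊢
      constructor
      · rintro ⟨f1, f2⟩
        refine ⟨f1, ?_⟩
        rw [e4, f2, f1]
      · rintro ⟨f1, f2⟩
        refine ⟨f1, ?_⟩
        rw [e4, f1] at f2
        linarith
  · rw [himg]
    exact Set.ncard_image_of_injective _ F.injective
  · rw [himg]
    rintro _ ⟨p, hp, rfl⟩ _ ⟨p', hp', rfl⟩ he
    by_contra hne
    apply hs
    refine ⟨p, hp, p', hp', fun h => hne (by rw [h]), ?_⟩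
    rw [hFx', hFx'] at he
    simp only at he
    rw [(hχ1 p hp.1).self_of_nhds, (hχ1 p' hp'.1).self_of_nhds, one_mul, one_mul] at he
    exact he

end Pool.Agent.LKG
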