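import Pool.Agent.LKG.Germ

/-!
# LKG/LkM: local structure of a link
-/

open scoped ContDiff Topology
open Set Filter
open Pool.Agent.KNT (CD U)

namespace Pool.Agent.LKG

theorem LkM_per {c : ℝ → ℂ × ℝ} (h : ∀ s, c (s + 1) = c s) (k : ℤ) (s : ℝ) : c (s + k) = c s := by
  have h1 : Function.Periodic c 1 := h
  have h2 := h1.int_mul k s
  simpa using h2

theorem LkM_range {c : ℝ → ℂ × ℝ} (h : ∀ s, c (s + 1) = c s) (a : ℝ) : range c = c '' Icc a (a + 1) := by
  apply Subset.antisymm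
  · rintro _ ⟨s, rfl⟩
    obtain ⟨k, hk, -⟩ := existsUnique_add_zsmul_mem_Ico (one_pos : (0 : ℝ) < 1) s a
    refine ⟨s + k, ?_, LkM_per h k s⟩
    have h2 : s + k ∈ Ico a (a + 1) := by simpa using hk
    exact ⟨h2.1, h2.2.le⟩
  · exact image_subset_range _ _

theorem Lk.cpt {n : ℕ} {B : Set (ℂ × ℝ)} (h : Lk n B) : IsCompact B := by
  obtain ⟨c, h1, h2, h3, h4, rfl⟩ := h
  apply isCompact_iUnion
  intro i
  rw [LkM_range (h3 i) 0]
  exact isCompact_Icc.image (h1 i).continuous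

theorem Lk.image {n : ℕ} {B O : Set (ℂ × ℝ)} (h : Lk n B) {F : Equiv.Perm (ℂ × ℝ)} (hF : CD O F) : Lk n (F '' B) := by
  obtain ⟨c, h1, h2, h3, h4, rfl⟩ := h
  refine ⟨fun i s => F (c i s), fun i => hF.smooth.comp (h1 i), ?_, ?_, ?_, ?_⟩
  · intro i s
    have e1 : HasDerivAt (c i) (deriv (c i) s) s := ((h1 i).differentiable (by simp) s).hasDerivAt
    have e2 : HasFDerivAt F (fderiv ℝ F (c i s)) (c i s) := (hF.smooth.differentiable (by simp) _).hasFDerivAt
    have e3 : HasDerivAt (fun s => F (c i s)) (fderiv ℝ F (c i s) (deriv (c i) s)) s := e2.comp_hasDerivAt s e1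
    rw [e3.deriv]
    intro h0
    exact h2 i s ((hF.fderiv_bij (c i s)).1 (by rw [h0, map_zero]))
  · intro i s
    show F (c i (s + 1)) = F (c i s)
    rw [h3]
  · intro i s j t he
    exact h4 i s j t (F.injective he)
  · rw [image_iUnion]
    apply iUnion_congr
    intro i
    rw [← range_comp]
    rfl

/-- near a point the link is a small piece of the curve -/
theorem LkM_local {n : ℕ} {c : Fin n → ℝ → ℂ × ℝ} (h1 : ∀ i, ContDiff ℝ ∞ (c i))
    (h3 : ∀ i s, c i (s + 1) = c i s) (h4 : ∀ i s j t, c i s = c j t → i = j ∧ ∃ k : ℤ, s = t + k)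
    (i : Fin n) (s₀ δ : ℝ) (hδ : 0 < δ) (hδ1 : δ < 1 / 2) :
    ∀ᶠ q in 𝓝 (c i s₀), (q ∈ ⋃ j, range (c j) ↔ ∃ s ∈ Ioo (s₀ - δ) (s₀ + δ), q = c i s) := by
  let K : Set (ℂ × ℝ) := (⋃ j : {j : Fin n // j ≠ i}, c j '' Icc 0 (0 + 1)) ∪ c i '' Icc (s₀ + δ) (s₀ + 1 - δ)
  have hK : IsCompact K := by
    apply IsCompact.union
    · apply isCompact_iUnion
      intro j
      exact isCompact_Icc.image (h1 _).continuous
    · exact isCompact_Icc.image (h1 i).continuous
  have hn : c i s₀ ∈ Kᶜ := by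
    rintro (h | h)
    · obtain ⟨j, t, -, ht⟩ := mem_iUnion.1 h
      exact j.2 (h4 _ _ _ _ ht).1
    · obtain ⟨t, ht, hts⟩ := h
      obtain ⟨-, k, hk⟩ := h4 _ _ _ _ hts
      have e1 : (0 : ℝ) < k := by linarith [ht.1]
      have e2 : (k : ℝ) < 1 := by linarith [ht.2]
      have e3 : (0 : ℤ) < k := by exact_mod_cast e1
      have e4 : k < (1 : ℤ) := by exact_mod_cast e2
      omega
  filter_upwards [hK.isClosed.isOpen_compl.mem_nhds hn] with q hq
  constructor
  · intro h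
    obtain ⟨j, t, rfl⟩ := mem_iUnion.1 h
    by_cases hj : j = i
    · subst hj
      obtain ⟨k, hk, -⟩ := existsUnique_add_zsmul_mem_Ioc (one_pos : (0 : ℝ) < 1) t (s₀ - δ)
      have h2 : t + k ∈ Ioc (s₀ - δ) (s₀ - δ + 1) := by simpa using hk
      have h5 : c j (t + k) = c j t := LkM_per (h3 j) k t
      by_cases h6 : t + k < s₀ + δ
      · exact ⟨t + k, ⟨h2.1, h6⟩, h5.symm⟩
      · exact absurd (Or.inr ⟨t + k, ⟨not_lt.1 h6, by linarith [h2.2]⟩, h5⟩) hq
    · refine absurd (Or.inl (mem_iUnion.2 ⟨⟨j, hj⟩, ?_⟩)) hq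
      show c j t ∈ c j '' Icc 0 (0 + 1)
      rw [← LkM_range (h3 j) 0]
      exact mem_range_self t
  · rintro ⟨s, -, rfl⟩
    exact mem_iUnion.2 ⟨i, mem_range_self s⟩

/-- transversal crossings are in graph form -/
theorem LkM_gr {n : ℕ} {c : Fin n → ℝ → ℂ × ℝ} (h1 : ∀ i, ContDiff ℝ ∞ (c i))
    (h3 : ∀ i s, c i (s + 1) = c i s) (h4 : ∀ i s j t, c i s = c j t → i = j ∧ ∃ k : ℤ, s = t + k)
    (i : Fin n) (s₀ : ℝ) (ht : (deriv (c i) s₀).1.re ≠ 0) : Gr (⋃ j, range (c j)) (c i s₀) := by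
  have hn : (∞ : WithTop ℕ∞) ≠ 0 := by simp
  let u : ℝ → ℝ := fun s => (c i s).1.re
  have hu : ContDiff ℝ ∞ u := Complex.reCLM.contDiff.comp (contDiff_fst.comp (h1 i))
  have hud : HasDerivAt u (deriv (c i) s₀).1.re s₀ := by
    have e1 : HasDerivAt (c i) (deriv (c i) s₀) s₀ := ((h1 i).differentiable hn s₀).hasDerivAt
    have e2 := (Complex.reCLM.comp (ContinuousLinearMap.fst ℝ ℂ ℝ)).hasFDerivAt.comp_hasDerivAt s₀ e1
    exact e2
  set f' : ℝ ≃L[ℝ] ℝ := ContinuousLinearEquiv.unitsEquivAut ℝ (Units.mk0 _ ht) with hf'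
  have hF : HasFDerivAt u (f' : ℝ →L[ℝ] ℝ) s₀ := by
    refine hud.hasFDerivAt.congr_fderiv ?_
    apply ContinuousLinearMap.ext
    intro v
    show v • (deriv (c i) s₀).1.re = f' v
    rfl
  let e := hu.contDiffAt.toOpenPartialHomeomorph u hF hn
  let σ : ℝ → ℝ := fun x => e.symm x
  have he : ∀ s, e s = u s := fun s => rfl
  have hes : s₀ ∈ e.source := hu.contDiffAt.mem_toOpenPartialHomeomorph_source hF hn
  have het : u s₀ ∈ e.target := hu.contDiffAt.image_mem_toOpenPartialHomeomorph_target hF hn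
  have hl : ∀ᶠ s in 𝓝 s₀, σ (u s) = s := by
    filter_upwards [e.open_source.mem_nhds hes] with s hs
    exact e.left_inv hs
  have hr : ∀ᶠ x in 𝓝 (u s₀), u (σ x) = x := by
    filter_upwards [e.open_target.mem_nhds het] with x hx
    exact e.right_inv hx
  have hσ0 : σ (u s₀) = s₀ := hl.self_of_nhds
  obtain ⟨δ, hδ, hδ1, hδ2⟩ : ∃ δ : ℝ, 0 < δ ∧ δ < 1 / 2 ∧ ∀ s ∈ Ioo (s₀ - δ) (s₀ + δ), σ (u s) = s := by
    obtain ⟨ε, hε, he⟩ := Metric.eventually_nhds_iff.1 hl
    refine ⟨min ε (1 / 4), lt_min hε (by norm_num), lt_of_le_of_lt (min_le_right _ _) (by norm_num), ?_⟩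
    intro s hs
    apply he
    rw [Real.dist_eq, abs_lt]
    have := min_le_left ε (1 / 4)
    constructor <;> linarith [hs.1, hs.2]
  have hσs : ∀ᶠ x in 𝓝 (u s₀), ContDiffAt ℝ ∞ σ x := by
    have f1 : ContinuousAt (fun x => deriv u (σ x)) (u s₀) := by
      have f2 : Continuous (deriv u) := hu.continuous_deriv (by simp)
      have f3 : ContinuousAt σ (u s₀) := e.symm.continuousAt het
      exact f2.continuousAt.comp f3
    have f4 : deriv u (σ (u s₀)) ≠ 0 := by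
      rw [hσ0, hud.deriv]
      exact ht
    filter_upwards [e.open_target.mem_nhds het, f1.eventually_ne f4] with x hx1 hx2
    exact e.contDiffAt_symm_deriv hx2 hx1 ((hu.differentiable hn (σ x)).hasDerivAt) hu.contDiffAt
  have hcσ : ∀ᶠ x in 𝓝 (u s₀), ContDiffAt ℝ ∞ (fun x => c i (σ x)) x := by
    filter_upwards [hσs] with x hx
    have e1 : ContDiffAt ℝ ∞ (c i) (σ x) := (h1 i).contDiffAt
    exact e1.comp x hx
  refine ⟨fun x => (c i (σ x)).1.im, fun x => (c i (σ x)).2, ?_, ?_, ?_, ?_⟩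
  · filter_upwards [hcσ] with x hx
    exact ⟨(Complex.imCLM.contDiff.contDiffAt).comp x (contDiffAt_fst.comp x hx), contDiffAt_snd.comp x hx⟩
  · show (c i (σ (u s₀))).1.im = _
    rw [hσ0]
  · show (c i (σ (u s₀))).2 = _
    rw [hσ0]
  · have hre : Tendsto (fun q : ℂ × ℝ => q.1.re) (𝓝 (c i s₀)) (𝓝 (u s₀)) :=
      (Complex.continuous_re.comp continuous_fst).tendsto _
    filter_upwards [LkM_local h1 h3 h4 i s₀ δ hδ hδ1, hre.eventually hr] with q hq1 hq2
    rw [hq1]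
    constructor
    · rintro ⟨s, hs, rfl⟩
      have e1 : σ (c i s).1.re = s := hδ2 s hs
      constructor
      · show (c i s).1.im = (c i (σ (c i s).1.re)).1.im
        rw [e1]
      · show (c i s).2 = (c i (σ (c i s).1.re)).2
        rw [e1]
    · rintro ⟨e1, e2⟩
      have e3 : q = c i (σ q.1.re) := by
        apply Prod.ext
        · apply Complex.ext
          · exact hq2.symm
          · exact e1
        · exact e2
      rw [← hq1]
      rw [e3]
      exact mem_iUnion.2 ⟨i, mem_range_self _⟩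

end Pool.Agent.LKG
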