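import Pool.Agent.LKG.Strt

/-!
# LKG/Main: links in general position with respect to the half plane `Hp`
-/

open scoped ContDiff Topology
open Set Filter
open Pool.Agent.KNT (CD U)

namespace Pool.Agent.LKG

theorem Main_step {B : Set (ℂ × ℝ)} (hB : GenG B) (S : Finset (ℂ × ℝ)) (hS : (S : Set (ℂ × ℝ)) ⊆ B ∩ Hp) :
    ∃ F : Equiv.Perm (ℂ × ℝ), CD Uᶜ F ∧ F '' B ∩ Hp = B ∩ Hp ∧ (∀ p ∈ S, Sg (F '' B) p) ∧
      ∀ p ∈ B ∩ Hp, Gr (F '' B) p := by
  classical
  induction S using Finset.induction_on with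
  | empty =>
    refine ⟨Equiv.refl _, KNT.CD.one _, ?_, by simp, ?_⟩
    · rw [Equiv.coe_refl, image_id]
    · rw [Equiv.coe_refl, image_id]
      exact hB.gr
  | insert p S hp ih =>
    obtain ⟨F, hF, h1, h2, h3⟩ := ih (fun q hq => hS (Finset.mem_insert_of_mem hq))
    have hpB : p ∈ B ∩ Hp := hS (Finset.mem_insert_self p S)
    let N : Set (ℂ × ℝ) := Uᶜ ∩ ((B ∩ Hp) \ {p})ᶜ
    have hUc : IsClosed (U : Set (ℂ × ℝ)) := isClosed_eq continuous_fst continuous_const
    have hN : IsOpen N := hUc.isOpen_compl.inter (hB.fin.subset (fun q hq => hq.1)).isClosed.isOpen_compl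
    have hpN : p ∈ N := by
      refine ⟨fun h0 => Set.disjoint_left.1 hB.off h0 hpB.1, fun h => h.2 rfl⟩
    obtain ⟨F', hF', g1, g2⟩ := str_one hN hpN hpB.2 (h1.symm ▸ hpB : p ∈ F '' B ∩ Hp).1 (h3 p hpB)
    have himg : F.trans F' '' B = F' '' (F '' B) := by
      rw [← image_comp]
      rfl
    have hgerm : ∀ q ∈ B ∩ Hp, q ≠ p → ∀ᶠ x in 𝓝 q, (x ∈ F' '' (F '' B) ↔ x ∈ F '' B) := by
      intro q hq hqp
      exact germ_of_CD hF' (fun hqN => hqN.2 ⟨hq, hqp⟩)
    refine ⟨F.trans F', hF.comp (hF'.mono inter_subset_left), ?_, ?_, ?_⟩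
    · rw [himg, g1, h1]
    · intro q hq
      rw [himg]
      rcases Finset.mem_insert.1 hq with rfl | hq
      · exact g2
      · by_cases hqp : q = p
        · rw [hqp]
          exact g2
        · exact (h2 q hq).congr (hgerm q (hS (Finset.mem_insert_of_mem hq)) hqp)
    · intro q hq
      rw [himg]
      by_cases hqp : q = p
      · rw [hqp]
        exact g2.gr
      · exact (h3 q hq).congr (hgerm q hq hqp)

/-- heights distinct, and straightening; the number of crossings does not change. -/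
theorem gen_str {B : Set (ℂ × ℝ)} (hB : GenG B) :
    ∃ F : Equiv.Perm (ℂ × ℝ), CD Uᶜ F ∧ GenB (F '' B) ∧ (F '' B ∩ Hp).ncard = (B ∩ Hp).ncard := by
  obtain ⟨F, hF, -, h1, h2, h3⟩ := Hts_main hB
  obtain ⟨F', hF', g1, g2, g3⟩ := Main_step h1 h1.fin.toFinset (by rw [Finite.coe_toFinset])
  have himg : F.trans F' '' B = F' '' (F '' B) := by
    rw [← image_comp]
    rfl
  refine ⟨F.trans F', hF.comp hF', ?_, ?_⟩
  · rw [himg]
    refine ⟨CD_cpt hF' h1.cpt, CD_off hF' h1.off, ?_, ?_, ?_⟩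
    · rw [g1]
      exact h1.fin
    · rw [g1]
      intro p hp
      exact g2 p (by rw [Finite.mem_toFinset]; exact hp)
    · rw [g1]
      exact h3
  · rw [himg, g1, h2]

theorem gen {n : ℕ} {B : Set (ℂ × ℝ)} (hB : Lk n B) (hd : Disjoint U B) :
    ∃ F : Equiv.Perm (ℂ × ℝ), CD Uᶜ F ∧ Lk n (F '' B) ∧ GenB (F '' B) := by
  obtain ⟨F, hF, h1, h2⟩ := gen_rot hB hd
  obtain ⟨F', hF', g1, -⟩ := gen_str h2
  have himg : F.trans F' '' B = F' '' (F '' B) := by
    rw [← image_comp]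
    rfl
  refine ⟨F.trans F', hF.comp hF', ?_, ?_⟩
  · rw [himg]
    exact h1.image hF'
  · rw [himg]
    exact g1

end Pool.Agent.LKG
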