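import Pool.Agent.LKG.LkM
import Pool.Agent.KNT.ERot

/-!
# LKG/Rot: Sard's theorem for the angle, and the rotation
-/

open scoped ContDiff Topology
open Set Filter MeasureTheory
open Pool.Agent.KNT (CD U rotP rotP_apply)
open Pool.Agent.CSG (stp)
open Pool.Agent.RSG (ex)

namespace Pool.Agent.LKG

/-- the critical values of the angle are a null set -/
theorem Rot_null {w : ℝ → ℂ} (hw : ContDiff ℝ ∞ w) :
    volume ((fun s => Complex.arg (w s)) '' {s | w s ∈ Complex.slitPlane ∧ (deriv w s / w s).im = 0}) = 0 := by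
  set S : Set ℝ := {s | w s ∈ Complex.slitPlane ∧ (deriv w s / w s).im = 0} with hS
  have h1 : ∀ s ∈ S, HasFDerivWithinAt (fun s => Complex.arg (w s)) (0 : ℝ →L[ℝ] ℝ) S s := by
    intro s hs
    have e1 : HasDerivAt w (deriv w s) s := (hw.differentiable (by simp) s).hasDerivAt
    have e2 : HasDerivAt (fun t => Complex.log (w t)) (deriv w s / w s) s := e1.clog_real hs.1
    have e3 : HasDerivAt (fun t => (Complex.log (w t)).im) (deriv w s / w s).im s :=
      Complex.imCLM.hasFDerivAt.comp_hasDerivAt s e2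
    have e4 : (fun t => (Complex.log (w t)).im) = fun t => Complex.arg (w t) := by
      funext t
      exact Complex.log_im _
    rw [e4, hs.2] at e3
    have e5 := e3.hasFDerivAt
    refine (e5.congr_fderiv ?_).hasFDerivWithinAt
    ext
    simp
  exact addHaar_image_eq_zero_of_det_fderivWithin_eq_zero volume h1 (fun s _ => by simp)

/-- an angle which is regular for all components -/
theorem Rot_angle {n : ℕ} {c : Fin n → ℝ → ℂ × ℝ} (h1 : ∀ i, ContDiff ℝ ∞ (c i)) :
    ∃ α ∈ Ioo (-Real.pi) Real.pi, ∀ i s, (c i s).1 ≠ 0 → Complex.arg (c i s).1 = α →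
      ((deriv (c i) s).1 / (c i s).1).im ≠ 0 := by
  let w : Fin n → ℝ → ℂ := fun i s => (c i s).1
  have hw : ∀ i, ContDiff ℝ ∞ (w i) := fun i => contDiff_fst.comp (h1 i)
  have hwd : ∀ i s, deriv (w i) s = (deriv (c i) s).1 := by
    intro i s
    have e1 : HasDerivAt (c i) (deriv (c i) s) s := ((h1 i).differentiable (by simp) s).hasDerivAt
    have e2 : HasDerivAt (w i) (deriv (c i) s).1 s :=
      (ContinuousLinearMap.fst ℝ ℂ ℝ).hasFDerivAt.comp_hasDerivAt s e1
    exact e2.deriv
  let N : Set ℝ := ⋃ i, (fun s => Complex.arg (w i s)) '' {s | w i s ∈ Complex.slitPlane ∧ (deriv (w i) s / w i s).im = 0}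
  have hN : volume N = 0 := measure_iUnion_null fun i => Rot_null (hw i)
  have h2 : ∃ α ∈ Ioo (-Real.pi) Real.pi, α ∉ N := by
    by_contra hcon
    push Not at hcon
    have e1 : volume (Ioo (-Real.pi) Real.pi) ≤ volume N := measure_mono hcon
    rw [hN, Real.volume_Ioo] at e1
    have e2 : ENNReal.ofReal (Real.pi - -Real.pi) = 0 := le_antisymm e1 zero_le
    rw [ENNReal.ofReal_eq_zero] at e2
    linarith [Real.pi_pos]
  obtain ⟨α, hα, hαN⟩ := h2
  refine ⟨α, hα, ?_⟩
  intro i s hne harg him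
  apply hαN
  refine mem_iUnion.2 ⟨i, s, ⟨?_, ?_⟩, harg⟩
  · rw [Complex.mem_slitPlane_iff_arg]
    exact ⟨by show Complex.arg (c i s).1 ≠ Real.pi; rw [harg]; exact hα.2.ne, hne⟩
  · show (deriv (w i) s / w i s).im = 0
    rw [hwd]
    exact him

/-- the cut-off function, invariant under rotations -/
theorem Rot_cut {B : Set (ℂ × ℝ)} (hc : IsCompact B) (hd : Disjoint U B) :
    ∃ χ : ℂ × ℝ → ℝ, ContDiff ℝ ∞ χ ∧ (∀ (w : ℂ) (a h : ℝ), χ (w * ex a, h) = χ (w, h)) ∧
      (∃ C : Set (ℂ × ℝ), IsCompact C ∧ C ⊆ Uᶜ ∧ ∀ q, q ∉ C → χ q = 0) ∧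
      ∀ p ∈ B, ∀ᶠ q in 𝓝 p, χ q = 1 := by
  obtain ⟨ε, hε, h1⟩ : ∃ ε : ℝ, 0 < ε ∧ ∀ q ∈ B, ε < Complex.normSq q.1 := by
    rcases B.eq_empty_or_nonempty with rfl | hne
    · exact ⟨1, one_pos, by simp⟩
    · obtain ⟨q₀, hq₀, hmin⟩ := hc.exists_isMinOn hne (f := fun q : ℂ × ℝ => Complex.normSq q.1)
        (Complex.continuous_normSq.comp continuous_fst).continuousOn
      have h0 : 0 < Complex.normSq q₀.1 := Complex.normSq_pos.2 fun h0 => Set.disjoint_left.1 hd h0 hq₀
      refine ⟨Complex.normSq q₀.1 / 2, by linarith, fun q hq => ?_⟩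
      have := hmin hq
      simp only [mem_setOf_eq] at this
      linarith
  obtain ⟨R, hR, h2, h3⟩ : ∃ R : ℝ, 0 < R ∧ (∀ q ∈ B, Complex.normSq q.1 < R) ∧ ∀ q ∈ B, q.2 ^ 2 < R := by
    obtain ⟨M, hM⟩ := hc.bddAbove_image (f := fun q : ℂ × ℝ => Complex.normSq q.1)
      (Complex.continuous_normSq.comp continuous_fst).continuousOn
    obtain ⟨M', hM'⟩ := hc.bddAbove_image (f := fun q : ℂ × ℝ => q.2 ^ 2) (continuous_snd.pow 2).continuousOn
    refine ⟨max (max M M') 0 + 1, by linarith [le_max_right (max M M') 0], ?_, ?_⟩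
    · intro q hq
      have e1 : Complex.normSq q.1 ≤ M := hM ⟨q, hq, rfl⟩
      linarith [le_max_left (max M M') 0, le_max_left M M']
    · intro q hq
      have e1 : q.2 ^ 2 ≤ M' := hM' ⟨q, hq, rfl⟩
      linarith [le_max_left (max M M') 0, le_max_right M M']
  have hns : ContDiff ℝ ∞ fun q : ℂ × ℝ => Complex.normSq q.1 := by
    have e1 : (fun q : ℂ × ℝ => Complex.normSq q.1) = fun q => q.1.re * q.1.re + q.1.im * q.1.im := by
      funext q
      exact Complex.normSq_apply _
    rw [e1]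
    have e2 : ContDiff ℝ ∞ fun q : ℂ × ℝ => q.1.re := Complex.reCLM.contDiff.comp contDiff_fst
    have e3 : ContDiff ℝ ∞ fun q : ℂ × ℝ => q.1.im := Complex.imCLM.contDiff.comp contDiff_fst
    exact (e2.mul e2).add (e3.mul e3)
  refine ⟨fun q => stp (ε / 2) ε (Complex.normSq q.1) * (1 - stp R (R + 1) (Complex.normSq q.1)) *
    (1 - stp R (R + 1) (q.2 ^ 2)), ?_, ?_, ?_, ?_⟩
  · exact (((CSG.stp_smooth _ _).comp hns).mul (contDiff_const.sub ((CSG.stp_smooth _ _).comp hns))).mul
      (contDiff_const.sub ((CSG.stp_smooth _ _).comp (contDiff_snd.pow 2)))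
  · intro w a h
    have e1 : Complex.normSq (w * ex a) = Complex.normSq w := by
      rw [Complex.normSq_mul]
      have : Complex.normSq (ex a) = 1 := by
        rw [Complex.normSq_eq_norm_sq, RSG.ex_norm]
        norm_num
      rw [this, mul_one]
    simp only [e1]
  · refine ⟨{q | ε / 2 ≤ Complex.normSq q.1} ∩ {q | Complex.normSq q.1 ≤ R + 1} ∩ {q | q.2 ^ 2 ≤ R + 1}, ?_, ?_, ?_⟩
    · apply Metric.isCompact_of_isClosed_isBounded
      · refine (IsClosed.inter ?_ ?_).inter ?_
        · exact isClosed_le continuous_const hns.continuous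
        · exact isClosed_le hns.continuous continuous_const
        · exact isClosed_le (continuous_snd.pow 2) continuous_const
      · rw [isBounded_iff_forall_norm_le]
        refine ⟨R + 1 + 1, ?_⟩
        rintro q ⟨⟨-, e2⟩, e3⟩
        have e2' : Complex.normSq q.1 ≤ R + 1 := e2
        have e3' : q.2 ^ 2 ≤ R + 1 := e3
        rw [Complex.normSq_eq_norm_sq] at e2'
        rw [Prod.norm_def]
        apply max_le
        · nlinarith [norm_nonneg q.1]
        · rw [Real.norm_eq_abs, abs_le]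
          constructor <;> nlinarith
    · rintro q ⟨⟨e1, -⟩, -⟩ (hq : q.1 = 0)
      have e1' : ε / 2 ≤ Complex.normSq q.1 := e1
      rw [hq, map_zero] at e1'
      linarith
    · intro q hq
      simp only [mem_inter_iff, mem_setOf_eq, not_and_or, not_le] at hq
      show stp (ε / 2) ε (Complex.normSq q.1) * (1 - stp R (R + 1) (Complex.normSq q.1)) *
        (1 - stp R (R + 1) (q.2 ^ 2)) = 0
      rcases hq with (hq | hq) | hq
      · rw [CSG.stp_zero (by linarith) hq.le]
        ring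
      · rw [CSG.stp_one (by linarith) hq.le]
        ring
      · rw [CSG.stp_one (a := R) (b := R + 1) (by linarith) hq.le]
        ring
  · intro p hp
    have e1 : ∀ᶠ q in 𝓝 p, ε < Complex.normSq q.1 := hns.continuous.continuousAt.eventually (lt_mem_nhds (h1 p hp))
    have e2 : ∀ᶠ q in 𝓝 p, Complex.normSq q.1 < R := hns.continuous.continuousAt.eventually (gt_mem_nhds (h2 p hp))
    have e3 : ∀ᶠ q : ℂ × ℝ in 𝓝 p, q.2 ^ 2 < R :=
      (continuous_snd.pow 2).continuousAt.eventually (gt_mem_nhds (h3 p hp))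
    filter_upwards [e1, e2, e3] with q f1 f2 f3
    rw [CSG.stp_one (by linarith) f1.le, CSG.stp_zero (by linarith) f2.le, CSG.stp_zero (by linarith) f3.le]
    ring

/-- Sard: after a rotation cut off at infinity and near the axis, finitely many crossings in graph form. -/
theorem gen_rot {n : ℕ} {B : Set (ℂ × ℝ)} (hB : Lk n B) (hd : Disjoint U B) :
    ∃ F : Equiv.Perm (ℂ × ℝ), CD Uᶜ F ∧ Lk n (F '' B) ∧ GenG (F '' B) := by
  obtain ⟨χ, hχs, hχr, ⟨C, hC, hCU, hC0⟩, hχ1⟩ := Rot_cut hB.cpt hd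
  obtain ⟨c, h1, h2, h3, h4, rfl⟩ := id hB
  obtain ⟨α, hα, hreg⟩ := Rot_angle h1
  let a : ℝ := -(1 / 4) - α / (2 * Real.pi)
  let f : ℂ × ℝ → ℝ := fun q => a * χ q
  have hf : ∀ (w : ℂ) (a h : ℝ), f (w * ex a, h) = f (w, h) := by
    intro w b h
    show a * χ _ = a * χ _
    rw [hχr]
  have hfs : ContDiff ℝ ∞ f := contDiff_const.mul hχs
  have hF : CD Uᶜ (rotP f hf) := by
    refine ⟨?_, ?_, C, hC, hCU, ?_⟩
    · have e1 : ContDiff ℝ ∞ fun q : ℂ × ℝ => ex (f q) := RSG.ex_smooth.comp hfs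
      exact (contDiff_fst.mul e1).prodMk contDiff_snd
    · have e1 : ContDiff ℝ ∞ fun q : ℂ × ℝ => ex (-f q) := RSG.ex_smooth.comp hfs.neg
      exact (contDiff_fst.mul e1).prodMk contDiff_snd
    · intro q hq
      rw [rotP_apply]
      have e1 : f q = 0 := by
        show a * χ q = 0
        rw [hC0 q hq, mul_zero]
      rw [e1, RSG.ex_zero, mul_one]
  refine ⟨rotP f hf, hF, hB.image hF, ?_⟩
  have hoff : Disjoint U (rotP f hf '' ⋃ i, range (c i)) := CD_off hF hd
  have hcpt : IsCompact (rotP f hf '' ⋃ i, range (c i)) := CD_cpt hF hB.cpt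
  have hgr : ∀ p ∈ (rotP f hf '' ⋃ i, range (c i)) ∩ Hp, Gr (rotP f hf '' ⋃ i, range (c i)) p := by
    rintro _ ⟨⟨q, hq, rfl⟩, hp⟩
    obtain ⟨i, s, rfl⟩ := mem_iUnion.1 hq
    have hFc : ∀ j t, rotP f hf (c j t) = ((c j t).1 * ex a, (c j t).2) := by
      intro j t
      rw [rotP_apply]
      have e1 : χ (c j t) = 1 := (hχ1 _ (mem_iUnion.2 ⟨j, mem_range_self t⟩)).self_of_nhds
      have e2 : f (c j t) = a := by
        show a * χ _ = a
        rw [e1, mul_one]
      rw [e2]
    have hwne : (c i s).1 ≠ 0 := fun h0 => Set.disjoint_left.1 hd (show c i s ∈ U from h0) hq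
    rw [hFc] at hp
    obtain ⟨hp1, hp2⟩ := hp
    simp only at hp1 hp2
    set r : ℝ := -((c i s).1 * ex a).im with hr
    have hr0 : 0 < r := by linarith
    have hw : (c i s).1 * ex a = -(r * Complex.I) := by
      apply Complex.ext
      · rw [hp1]; simp
      · simp [hr]
    have harg : Complex.arg (c i s).1 = α := by
      have e1 : (c i s).1 = (r : ℂ) * Complex.exp (α * Complex.I) := by
        have e2 : (c i s).1 = -(r * Complex.I) * ex (-a) := by
          rw [← hw, mul_assoc, ← RSG.ex_add, add_neg_cancel, RSG.ex_zero, mul_one]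
        rw [e2]
        have e3 : -Complex.I = ex (-(1 / 4)) := by
          rw [RSG.ex_neg, RSG.ex_quarter, Complex.conj_I]
        have e4 : -(r * Complex.I) * ex (-a) = (r : ℂ) * (-Complex.I * ex (-a)) := by ring
        rw [e4, e3, ← RSG.ex_add]
        congr 1
        have e5 : -(1 / 4) + -a = α / (2 * Real.pi) := by
          show -(1 / 4) + -(-(1 / 4) - α / (2 * Real.pi)) = _
          ring
        rw [e5]
        unfold RSG.ex
        congr 1
        push_cast
        have hpi : (Real.pi : ℂ) ≠ 0 := by exact_mod_cast Real.pi_ne_zero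
        field_simp
      rw [e1, Complex.exp_mul_I]
      exact Complex.arg_mul_cos_add_sin_mul_I hr0 ⟨hα.1, hα.2.le⟩
    have hreg' := hreg i s hwne harg
    have hder : ∀ j t, HasDerivAt (fun t => rotP f hf (c j t)) ((deriv (c j) t).1 * ex a, (deriv (c j) t).2) t := by
      intro j t
      have e0 : (fun t => rotP f hf (c j t)) = fun t => ((c j t).1 * ex a, (c j t).2) := funext (hFc j)
      rw [e0]
      have e1 : HasDerivAt (c j) (deriv (c j) t) t := ((h1 j).differentiable (by simp) t).hasDerivAt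
      have e2 : HasDerivAt (fun t => (c j t).1) (deriv (c j) t).1 t :=
        (ContinuousLinearMap.fst ℝ ℂ ℝ).hasFDerivAt.comp_hasDerivAt t e1
      have e3 : HasDerivAt (fun t => (c j t).2) (deriv (c j) t).2 t :=
        (ContinuousLinearMap.snd ℝ ℂ ℝ).hasFDerivAt.comp_hasDerivAt t e1
      exact (e2.mul_const (ex a)).prodMk e3
    have himg : (rotP f hf '' ⋃ i, range (c i)) = ⋃ i, range (fun t => rotP f hf (c i t)) := by
      rw [image_iUnion]
      apply iUnion_congr
      intro j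
      rw [← range_comp]
      rfl
    rw [himg]
    refine LkM_gr (c := fun j t => rotP f hf (c j t)) (fun j => hF.smooth.comp (h1 j)) (fun j t => ?_)
      (fun j t k u he => h4 j t k u ((rotP f hf).injective he)) i s ?_
    · show rotP f hf (c j (t + 1)) = rotP f hf (c j t)
      rw [h3]
    · rw [(hder i s).deriv]
      show ((deriv (c i) s).1 * ex a).re ≠ 0
      have e1 : (deriv (c i) s).1 * ex a = (deriv (c i) s).1 / (c i s).1 * (-(r * Complex.I)) := by
        rw [← hw]
        field_simp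
      rw [e1]
      set z := (deriv (c i) s).1 / (c i s).1
      have e2 : (z * (-(r * Complex.I))).re = r * z.im := by
        simp [mul_comm]
      rw [e2]
      exact mul_ne_zero hr0.ne' hreg'
  exact ⟨hcpt, hoff, Hp_isol hcpt hoff hgr, hgr⟩

end Pool.Agent.LKG
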