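import Pool.Agent.LKG.Hts

/-!
# LKG/Strt: straightening of the crossings
-/

open scoped ContDiff Topology
open Set Filter
open Pool.Agent.KNT (CD U)
open Pool.Agent.RSG (ex)
open Pool.Agent.CSG (stp)

namespace Pool.Agent.LKG

theorem str_one {B N : Set (ℂ × ℝ)} {p : ℂ × ℝ} (hN : IsOpen N) (hpN : p ∈ N) (hp : p ∈ Hp) (hpB : p ∈ B)
    (hG : Gr B p) :
    ∃ F : Equiv.Perm (ℂ × ℝ), CD N F ∧ F '' B ∩ Hp = B ∩ Hp ∧ Sg (F '' B) p := by
  obtain ⟨β, γ, g0, g3, g4, g5⟩ := hG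
  have hp0 : p.1.re = 0 := hp.1
  rw [hp0] at g0 g3 g4
  have g1 : ContDiffAt ℝ ∞ β 0 := g0.self_of_nhds.1
  have g2 : ContDiffAt ℝ ∞ γ 0 := g0.self_of_nhds.2
  -- the box
  obtain ⟨ε, hε, hb⟩ : ∃ ε : ℝ, 0 < ε ∧ ∀ q : ℂ × ℝ, |q.1.re| < ε → |q.1.im - p.1.im| < ε → |q.2 - p.2| < ε →
      q ∈ N ∧ (q ∈ B ↔ q.1.im = β q.1.re ∧ q.2 = γ q.1.re) := by
    have e0 : ∀ᶠ q in 𝓝 p, q ∈ N := hN.mem_nhds hpN
    obtain ⟨ε, hε, he⟩ := Metric.eventually_nhds_iff.1 (e0.and g5)
    refine ⟨ε / 2, by linarith, ?_⟩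
    intro q h1 h2 h3
    apply he
    rw [Prod.dist_eq, max_lt_iff]
    constructor
    · rw [Complex.dist_eq]
      have e1 := Complex.norm_le_abs_re_add_abs_im (q.1 - p.1)
      rw [Complex.sub_re, Complex.sub_im, hp0, sub_zero] at e1
      linarith
    · rw [Real.dist_eq]
      linarith
  -- smoothness near 0
  have hn : (∞ : WithTop ℕ∞) ≠ 0 := by simp
  obtain ⟨δ, hδ, hδε, hsm, hcl⟩ : ∃ δ : ℝ, 0 < δ ∧ δ < ε ∧
      (∀ u : ℝ, |u| < 2 * δ → ContDiffAt ℝ ∞ β u ∧ ContDiffAt ℝ ∞ γ u) ∧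
      ∀ u : ℝ, |u| ≤ δ → |β u - p.1.im| < ε ∧ |γ u - p.2| < ε := by
    have e1 : ∀ᶠ u in 𝓝 (0 : ℝ), ContDiffAt ℝ ∞ β u ∧ ContDiffAt ℝ ∞ γ u := g0
    have e2 : ∀ᶠ u in 𝓝 (0 : ℝ), |β u - p.1.im| < ε ∧ |γ u - p.2| < ε := by
      have f1 : ContinuousAt (fun u => |β u - p.1.im|) 0 := (g1.continuousAt.sub continuousAt_const).abs
      have f2 : ContinuousAt (fun u => |γ u - p.2|) 0 := (g2.continuousAt.sub continuousAt_const).abs
      have f3 : |β 0 - p.1.im| < ε := by rw [g3, sub_self, abs_zero]; exact hε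
      have f4 : |γ 0 - p.2| < ε := by rw [g4, sub_self, abs_zero]; exact hε
      exact (f1.eventually (gt_mem_nhds f3)).and (f2.eventually (gt_mem_nhds f4))
    obtain ⟨d, hd, hde⟩ := Metric.eventually_nhds_iff.1 (e1.and e2)
    refine ⟨min (ε / 2) (d / 4), lt_min (by linarith) (by linarith), lt_of_le_of_lt (min_le_left _ _) (by linarith), ?_, ?_⟩
    · intro u hu
      apply (hde _).1
      rw [Real.dist_eq, sub_zero]
      linarith [min_le_right (ε / 2) (d / 4)]
    · intro u hu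
      apply (hde _).2
      rw [Real.dist_eq, sub_zero]
      linarith [min_le_right (ε / 2) (d / 4)]
  let O : Set (ℂ × ℝ) := {q | |q.1.re| < δ ∧ |q.1.im - p.1.im| < ε ∧ |q.2 - p.2| < ε}
  have hO : IsOpen O := by
    apply IsOpen.inter
    · exact isOpen_lt (Complex.continuous_re.comp continuous_fst).abs continuous_const
    · apply IsOpen.inter
      · exact isOpen_lt ((Complex.continuous_im.comp continuous_fst).sub continuous_const).abs continuous_const
      · exact isOpen_lt (continuous_snd.sub continuous_const).abs continuous_const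
  have hON : O ⊆ N := fun q hq => (hb q (lt_trans hq.1 hδε) hq.2.1 hq.2.2).1
  have hOB : ∀ q ∈ O, (q ∈ B ↔ q.1.im = β q.1.re ∧ q.2 = γ q.1.re) := fun q hq =>
    (hb q (lt_trans hq.1 hδε) hq.2.1 hq.2.2).2
  let χ : ℝ → ℝ := fun u => 1 - stp (δ ^ 2 / 16) (δ ^ 2 / 4) (u ^ 2)
  have hχs : ContDiff ℝ ∞ χ := contDiff_const.sub ((CSG.stp_smooth _ _).comp (contDiff_id.pow 2))
  have hχ01 : ∀ u, 0 ≤ χ u ∧ χ u ≤ 1 := fun u => by
    have e1 := CSG.stp_nonneg (δ ^ 2 / 16) (δ ^ 2 / 4) (u ^ 2)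
    have e2 := CSG.stp_le_one (δ ^ 2 / 16) (δ ^ 2 / 4) (u ^ 2)
    constructor
    · show 0 ≤ 1 - stp (δ ^ 2 / 16) (δ ^ 2 / 4) (u ^ 2)
      linarith
    · show 1 - stp (δ ^ 2 / 16) (δ ^ 2 / 4) (u ^ 2) ≤ 1
      linarith
  have hχ1 : ∀ u, |u| < δ / 4 → χ u = 1 := by
    intro u hu
    show 1 - stp (δ ^ 2 / 16) (δ ^ 2 / 4) (u ^ 2) = 1
    have e1 : u ^ 2 ≤ δ ^ 2 / 16 := by rw [← sq_abs u]; nlinarith [abs_nonneg u]
    rw [CSG.stp_zero (by nlinarith) e1, sub_zero]
  have hχ0 : ∀ u, δ / 2 ≤ |u| → χ u = 0 := by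
    intro u hu
    show 1 - stp (δ ^ 2 / 16) (δ ^ 2 / 4) (u ^ 2) = 0
    have e1 : δ ^ 2 / 4 ≤ u ^ 2 := by rw [← sq_abs u]; nlinarith [abs_nonneg u]
    rw [CSG.stp_one (by nlinarith) e1, sub_self]
  let k : ℝ → ℝ → ℂ × ℝ := fun s u =>
    (⟨u, β u + s * χ u * (p.1.im - β u)⟩, γ u + s * χ u * (p.2 - γ u))
  have hkre : ∀ s u, (k s u).1.re = u := fun s u => rfl
  obtain ⟨F, hF, hFk⟩ := ISO.core_arc LKG_lat (O := O) hO (k := k) (a₀ := -(2 * δ)) (a := -δ) (a' := -(δ / 2))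
    (b' := δ / 2) (b := δ) (b₀ := 2 * δ) (by linarith) (by linarith) (by linarith) (by linarith)
    (by
      intro s _ u hu
      have h2 := hsm u (abs_lt.2 hu)
      have e1 : ContDiffAt ℝ ∞ (fun q : ℝ × ℝ => β q.2) (s, u) := h2.1.comp (s, u) contDiffAt_snd
      have e2 : ContDiffAt ℝ ∞ (fun q : ℝ × ℝ => γ q.2) (s, u) := h2.2.comp (s, u) contDiffAt_snd
      have e3 : ContDiffAt ℝ ∞ (fun q : ℝ × ℝ => χ q.2) (s, u) := hχs.contDiffAt.comp (s, u) contDiffAt_snd
      have e4 : ContDiffAt ℝ ∞ (fun q : ℝ × ℝ => β q.2 + q.1 * χ q.2 * (p.1.im - β q.2)) (s, u) :=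
        e1.add ((contDiffAt_fst.mul e3).mul (contDiffAt_const.sub e1))
      have e5 : ContDiffAt ℝ ∞ (fun q : ℝ × ℝ => γ q.2 + q.1 * χ q.2 * (p.2 - γ q.2)) (s, u) :=
        e2.add ((contDiffAt_fst.mul e3).mul (contDiffAt_const.sub e2))
      have e6 : ContDiffAt ℝ ∞ (fun q : ℝ × ℝ => Complex.equivRealProdCLM.symm
          (q.2, β q.2 + q.1 * χ q.2 * (p.1.im - β q.2))) (s, u) :=
        (Complex.equivRealProdCLM.symm.contDiff.contDiffAt).comp (s, u) (contDiffAt_snd.prodMk e4)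
      have e7 : (fun q : ℝ × ℝ => k q.1 q.2) = fun q => (Complex.equivRealProdCLM.symm
          (q.2, β q.2 + q.1 * χ q.2 * (p.1.im - β q.2)), γ q.2 + q.1 * χ q.2 * (p.2 - γ q.2)) := by
        funext q
        apply Prod.ext
        · apply Complex.ext <;> simp [k]
        · rfl
      rw [e7]
      exact e6.prodMk e5)
    (by
      intro s _ u hu hu2
      have e1 : χ u = 0 := by
        apply hχ0
        rcases hu2 with h | h
        · rw [abs_of_nonpos (by linarith)]; linarith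
        · rw [abs_of_nonneg (by linarith)]; exact h
      show k s u = k 0 u
      simp only [k, e1, mul_zero, zero_mul])
    (by
      intro s hs u hu
      have e0 : |u| ≤ δ / 2 := abs_le.2 hu
      obtain ⟨e1, e2⟩ := hcl u (by linarith)
      have e3 : 0 ≤ s * χ u := mul_nonneg hs.1 (hχ01 u).1
      have e4 : s * χ u ≤ 1 := mul_le_one₀ hs.2 (hχ01 u).1 (hχ01 u).2
      refine ⟨by show |u| < δ; linarith, ?_, ?_⟩
      · show |β u + s * χ u * (p.1.im - β u) - p.1.im| < ε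
        have e5 : β u + s * χ u * (p.1.im - β u) - p.1.im = (1 - s * χ u) * (β u - p.1.im) := by ring
        rw [e5, abs_mul, abs_of_nonneg (by linarith)]
        nlinarith [abs_nonneg (β u - p.1.im)]
      · show |γ u + s * χ u * (p.2 - γ u) - p.2| < ε
        have e5 : γ u + s * χ u * (p.2 - γ u) - p.2 = (1 - s * χ u) * (γ u - p.2) := by ring
        rw [e5, abs_mul, abs_of_nonneg (by linarith)]
        nlinarith [abs_nonneg (γ u - p.2)])
    (by
      intro s _ u hu h0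
      have h2 := hsm u (by rw [abs_lt]; constructor <;> linarith [hu.1, hu.2])
      have e1 : DifferentiableAt ℝ (fun u => (⟨u, β u + s * χ u * (p.1.im - β u)⟩ : ℂ)) u := by
        have f1 : DifferentiableAt ℝ β u := h2.1.differentiableAt hn
        have f2 : DifferentiableAt ℝ χ u := (hχs.differentiable hn) u
        have f3 : DifferentiableAt ℝ (fun u => β u + s * χ u * (p.1.im - β u)) u :=
          f1.add (((differentiableAt_const s).mul f2).mul ((differentiableAt_const _).sub f1))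
        have f4 : (fun u => (⟨u, β u + s * χ u * (p.1.im - β u)⟩ : ℂ)) = fun u => Complex.equivRealProdCLM.symm
            (u, β u + s * χ u * (p.1.im - β u)) := by
          funext u
          apply Complex.ext <;> simp
        rw [f4]
        exact Complex.equivRealProdCLM.symm.differentiableAt.comp u (differentiableAt_id.prodMk f3)
      have e2 : DifferentiableAt ℝ (fun u => γ u + s * χ u * (p.2 - γ u)) u := by
        have f1 : DifferentiableAt ℝ γ u := h2.2.differentiableAt hn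
        have f2 : DifferentiableAt ℝ χ u := (hχs.differentiable hn) u
        exact f1.add (((differentiableAt_const s).mul f2).mul ((differentiableAt_const _).sub f1))
      have e3 : HasDerivAt (k s) (deriv (k s) u) u := (e1.prodMk e2).hasDerivAt
      have e4 : HasDerivAt (fun u => (k s u).1.re) (deriv (k s) u).1.re u :=
        (Complex.reCLM.comp (ContinuousLinearMap.fst ℝ ℂ ℝ)).hasFDerivAt.comp_hasDerivAt u e3
      have e5 : HasDerivAt (fun u => (k s u).1.re) 1 u := hasDerivAt_id u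
      have e6 := e4.unique e5
      rw [h0] at e6
      simp at e6)
    (by
      intro s _ u _ u' _ m hm he
      rw [AddSubgroup.mem_bot.1 hm, add_zero] at he
      have e1 := congrArg (fun q : ℂ × ℝ => q.1.re) he
      exact e1)
  have hCDO : CD O F := KNT.cd_of_move hF
  have hCD : CD N F := hCDO.mono hON
  -- description of B in O
  have hk0 : ∀ u, k 0 u = (⟨u, β u⟩, γ u) := by
    intro u
    simp only [k, zero_mul, add_zero]
  have hin : ∀ q ∈ O, q ∈ B → |q.1.re| < δ ∧ q = k 0 q.1.re := by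
    intro q hq hqB
    obtain ⟨e1, e2⟩ := (hOB q hq).1 hqB
    refine ⟨hq.1, ?_⟩
    rw [hk0]
    exact Prod.ext (Complex.ext rfl e1) e2
  have hk0B : ∀ u, |u| < δ → k 0 u ∈ O ∧ k 0 u ∈ B := by
    intro u hu
    obtain ⟨e1, e2⟩ := hcl u hu.le
    have e3 : k 0 u ∈ O := by
      rw [hk0]
      exact ⟨hu, e1, e2⟩
    refine ⟨e3, (hOB _ e3).2 ?_⟩
    rw [hk0]
    exact ⟨rfl, rfl⟩
  have hFO : ∀ q, F q ∈ O ↔ q ∈ O := by
    intro q
    by_cases h1 : q ∈ O
    · simp only [h1, iff_true]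
      by_contra h2
      have h3 : F (F q) = F q := hCDO.fix h2
      rw [F.injective h3] at h2
      exact h2 h1
    · rw [hCDO.fix h1]
  have hFk' : ∀ u, |u| < δ → F (k 0 u) = k 1 u := fun u hu => hFk u ⟨(abs_lt.1 hu).1.le, (abs_lt.1 hu).2.le⟩
  have hp10 : k 1 0 = p := by
    have e1 : χ 0 = 1 := hχ1 0 (by rw [abs_zero]; linarith)
    simp only [k, e1, g3, g4]
    apply Prod.ext
    · apply Complex.ext
      · exact hp0.symm
      · show p.1.im + 1 * 1 * (p.1.im - p.1.im) = p.1.im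
        ring
    · show p.2 + 1 * 1 * (p.2 - p.2) = p.2
      ring
  have hp00 : k 0 0 = p := by
    rw [hk0, g3, g4]
    exact Prod.ext (Complex.ext hp0.symm rfl) rfl
  refine ⟨F, hCD, ?_, ?_⟩
  · ext y
    constructor
    · rintro ⟨⟨x, hx, rfl⟩, hy⟩
      by_cases hxO : x ∈ O
      · obtain ⟨e1, e2⟩ := hin x hxO hx
        rw [e2, hFk' _ e1] at hy ⊢
        have e3 : x.1.re = 0 := hy.1
        rw [e3, hp10]
        exact ⟨hpB, hp⟩
      · rw [hCDO.fix hxO] at hy ⊢
        exact ⟨hx, hy⟩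
    · rintro ⟨hy1, hy2⟩
      refine ⟨?_, hy2⟩
      by_cases hyO : y ∈ O
      · obtain ⟨e1, e2⟩ := hin y hyO hy1
        have e3 : y.1.re = 0 := hy2.1
        rw [e3, hp00] at e2
        rw [e2]
        refine ⟨p, hpB, ?_⟩
        rw [← hp00, hFk' 0 (by rw [abs_zero]; exact hδ), hp10, hp00]
      · exact ⟨y, hy1, hCDO.fix hyO⟩
  · unfold Sg
    have hnear : {q : ℂ × ℝ | |q.1.re| < δ / 4 ∧ |q.1.im - p.1.im| < ε ∧ |q.2 - p.2| < ε} ∈ 𝓝 p := by
      apply IsOpen.mem_nhds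
      · apply IsOpen.inter
        · exact isOpen_lt (Complex.continuous_re.comp continuous_fst).abs continuous_const
        · apply IsOpen.inter
          · exact isOpen_lt ((Complex.continuous_im.comp continuous_fst).sub continuous_const).abs continuous_const
          · exact isOpen_lt (continuous_snd.sub continuous_const).abs continuous_const
      · show |p.1.re| < δ / 4 ∧ |p.1.im - p.1.im| < ε ∧ |p.2 - p.2| < ε
        rw [hp0, sub_self, sub_self, abs_zero]
        exact ⟨by linarith, hε, hε⟩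
    filter_upwards [hnear] with q hq
    obtain ⟨q1, q2, q3⟩ := hq
    have hqO : q ∈ O := ⟨by linarith, q2, q3⟩
    have hk1 : ∀ u, |u| < δ / 4 → k 1 u = (⟨u, p.1.im⟩, p.2) := by
      intro u hu
      simp only [k, hχ1 u hu]
      apply Prod.ext
      · apply Complex.ext
        · rfl
        · show β u + 1 * 1 * (p.1.im - β u) = p.1.im
          ring
      · show γ u + 1 * 1 * (p.2 - γ u) = p.2
        ring
    constructor
    · rintro ⟨x, hx, rfl⟩
      have hxO : x ∈ O := (hFO x).1 hqO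
      obtain ⟨e1, e2⟩ := hin x hxO hx
      have e3 : F x = k 1 x.1.re := by
        have e4 := hFk' _ e1
        rwa [← e2] at e4
      rw [e3] at q1 ⊢
      have e4 := hk1 x.1.re q1
      rw [e4]
      exact ⟨rfl, rfl⟩
    · rintro ⟨e1, e2⟩
      refine ⟨k 0 q.1.re, (hk0B _ (by linarith)).2, ?_⟩
      rw [hFk' _ (by linarith), hk1 _ q1]
      exact Prod.ext (Complex.ext rfl e1.symm) e2.symm

end Pool.Agent.LKG
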